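import Mathlib

/-!
# Random bounded convex sets: definitions
-/

set_option autoImplicit false

namespace Pool.Agent.R326.RS

open MeasureTheory ProbabilityTheory Filter Topology Set
open scoped Pointwise ENNReal BoundedContinuousFunction

universe u v

/-- `BC(X)`: nonempty bounded convex subsets of `X`. -/
structure BC (X : Type u) [NormedAddCommGroup X] [NormedSpace ℝ X] where
  /-- the underlying set -/
  carrier : Set X
  nonempty : carrier.Nonempty
  convex : Convex ℝ carrier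
  bounded : Bornology.IsBounded carrier

/-- `X` is B-convex: for some `k ≥ 2` and `ε > 0`, all `x_1, ..., x_k` in the unit ball admit signs
with `‖∑ ± x_i‖ ≤ k (1 - ε)`. -/
def BConvex (X : Type u) [NormedAddCommGroup X] [NormedSpace ℝ X] : Prop :=
  ∃ k : ℕ, 2 ≤ k ∧ ∃ ε : ℝ, 0 < ε ∧ ∀ x : Fin k → X, (∀ i, ‖x i‖ ≤ 1) →
    ∃ s : Fin k → ℝ, (∀ i, s i = 1 ∨ s i = -1) ∧ ‖∑ i, s i • x i‖ ≤ k * (1 - ε)

variable {X : Type u} [NormedAddCommGroup X] [NormedSpace ℝ X]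

/-- `‖A‖ = sup {‖a‖ : a ∈ A}` bounds the support function -/
lemma bddAbove_image {A : Set X} {C : ℝ} (hC : ∀ a ∈ A, ‖a‖ ≤ C) (f : StrongDual ℝ X) :
    BddAbove (f '' A) := by
  refine ⟨‖f‖ * C, ?_⟩
  rintro _ ⟨a, ha, rfl⟩
  calc f a ≤ ‖f a‖ := Real.le_norm_self _
    _ ≤ ‖f‖ * ‖a‖ := f.le_opNorm a
    _ ≤ ‖f‖ * C := mul_le_mul_of_nonneg_left (hC a ha) (norm_nonneg _)

lemma sSup_le_add {A : Set X} (hA : A.Nonempty) {C : ℝ} (hC : ∀ a ∈ A, ‖a‖ ≤ C)
    (f g : StrongDual ℝ X) : sSup (f '' A) ≤ sSup (g '' A) + C * ‖f - g‖ := by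
  apply csSup_le (hA.image _)
  rintro _ ⟨a, ha, rfl⟩
  have h1 : g a ≤ sSup (g '' A) := le_csSup (bddAbove_image hC g) ⟨a, ha, rfl⟩
  have h2 : f a - g a ≤ C * ‖f - g‖ := by
    calc f a - g a = (f - g) a := rfl
      _ ≤ ‖(f - g) a‖ := Real.le_norm_self _
      _ ≤ ‖f - g‖ * ‖a‖ := (f - g).le_opNorm a
      _ ≤ ‖f - g‖ * C := mul_le_mul_of_nonneg_left (hC a ha) (norm_nonneg _)
      _ = C * ‖f - g‖ := mul_comm _ _
  linarith

lemma BC.exists_bound (A : BC X) : ∃ C : ℝ, 0 ≤ C ∧ ∀ a ∈ A.carrier, ‖a‖ ≤ C := by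
  obtain ⟨C, hC⟩ := A.bounded.exists_norm_le
  exact ⟨max C 0, le_max_right _ _, fun a ha => (hC a ha).trans (le_max_left _ _)⟩

lemma BC.continuous_sSup (A : BC X) :
    Continuous fun f : Metric.sphere (0 : StrongDual ℝ X) 1 =>
      sSup ((f : StrongDual ℝ X) '' A.carrier) := by
  obtain ⟨C, hC0, hC⟩ := A.exists_bound
  refine LipschitzWith.continuous (K := C.toNNReal) (LipschitzWith.of_dist_le_mul fun f g => ?_)
  rw [Real.dist_eq, abs_le, Real.coe_toNNReal _ hC0, Subtype.dist_eq, dist_eq_norm]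
  have h1 := sSup_le_add A.nonempty hC (f : StrongDual ℝ X) g
  have h2 := sSup_le_add A.nonempty hC (g : StrongDual ℝ X) f
  rw [norm_sub_rev] at h2
  constructor <;> linarith

lemma BC.norm_sSup_le (A : BC X) {C : ℝ} (hC : ∀ a ∈ A.carrier, ‖a‖ ≤ C)
    (f : Metric.sphere (0 : StrongDual ℝ X) 1) :
    ‖sSup ((f : StrongDual ℝ X) '' A.carrier)‖ ≤ C := by
  have hf : ‖(f : StrongDual ℝ X)‖ = 1 := by simp
  have hb : ∀ a ∈ A.carrier, |(f : StrongDual ℝ X) a| ≤ C := by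
    intro a ha
    calc |(f : StrongDual ℝ X) a| ≤ ‖(f : StrongDual ℝ X)‖ * ‖a‖ :=
          (f : StrongDual ℝ X).le_opNorm a
      _ ≤ C := by rw [hf, one_mul]; exact hC a ha
  rw [Real.norm_eq_abs, abs_le]
  obtain ⟨a, ha⟩ := A.nonempty
  constructor
  · have h1 := le_csSup (bddAbove_image hC (f : StrongDual ℝ X)) ⟨a, ha, rfl⟩
    have h2 := (abs_le.1 (hb a ha)).1
    linarith
  · apply csSup_le (A.nonempty.image _)
    rintro _ ⟨a, ha, rfl⟩
    exact (abs_le.1 (hb a ha)).2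

/-- The Rådström embedding: `R(A)(x*) = sup_{a ∈ A} x*(a)`, a bounded continuous function on the
unit sphere of the dual. -/
noncomputable def R (A : BC X) : Metric.sphere (0 : StrongDual ℝ X) 1 →ᵇ ℝ :=
  BoundedContinuousFunction.ofNormedAddCommGroup
    (fun f : Metric.sphere (0 : StrongDual ℝ X) 1 => sSup ((f : StrongDual ℝ X) '' A.carrier))
    A.continuous_sSup A.exists_bound.choose
    (A.norm_sSup_le A.exists_bound.choose_spec.2)

lemma R_apply (A : BC X) (f : Metric.sphere (0 : StrongDual ℝ X) 1) :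
    R A f = sSup ((f : StrongDual ℝ X) '' A.carrier) := rfl

/-- The Minkowski average `(1/n) (Ψ_0(ω) + ... + Ψ_{n-1}(ω))`. -/
noncomputable def avg {Ω : Type v} (Ψ : ℕ → Ω → BC X) (n : ℕ) (ω : Ω) : Set X :=
  (1 / (n : ℝ)) • ∑ i ∈ Finset.range n, (Ψ i ω).carrier

/-- `(Ψ_n)` is a sequence of independent random sets, all with the same expectation `U`:
`R ∘ Ψ_n` is (strongly) measurable and Bochner integrable with integral `R(U)`, and the random
vectors `R ∘ Ψ_n` are independent. -/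
structure IndepWithExpectation {Ω : Type v} [MeasurableSpace Ω] (μ : Measure Ω)
    (Ψ : ℕ → Ω → BC X) (U : BC X) : Prop where
  stronglyMeasurable : ∀ n, StronglyMeasurable fun ω => R (Ψ n ω)
  integrable : ∀ n, Integrable (fun ω => R (Ψ n ω)) μ
  integral_eq : ∀ n, ∫ ω, R (Ψ n ω) ∂μ = R U
  indep : iIndepFun (m := fun _ => borel _) (fun n ω => R (Ψ n ω)) μ

end Pool.Agent.R326.RS
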