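import Pool.Agent.R326.RS.Master

/-!
# The counterexample: conclusions
-/

set_option autoImplicit false

namespace Pool.Agent.R326.RS

open MeasureTheory ProbabilityTheory Filter Topology Set
open scoped Pointwise ENNReal BoundedContinuousFunction

lemma tendsto_N : Tendsto (fun b : ℕ => 4 ^ (b + 1) - 1) atTop atTop := by
  apply tendsto_atTop_mono (f := fun b : ℕ => b) _ tendsto_id
  intro b
  show b ≤ 4 ^ (b + 1) - 1
  have := Nat.lt_pow_self (n := b + 1) (a := 4) (by norm_num)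
  omega

theorem not_tendsto (ω : Om 1) :
    ¬ Tendsto (fun n => Metric.hausdorffDist (avg (Psi 1) n ω) (UU 1).carrier) atTop (𝓝 0) := by
  intro h
  have h1 := (h.comp tendsto_N).eventually (gt_mem_nhds (show (0 : ℝ) < 9 / 32 by norm_num))
  obtain ⟨b, hb⟩ := h1.exists
  have h2 := far_dist (c := 1) le_rfl b ω
  exact absurd hb (not_lt.2 h2)

/-- no strong law for independent random sets with a common compact expectation -/
theorem no_slln : ∃ (X : Type) (_ : NormedAddCommGroup X) (_ : InnerProductSpace ℝ X)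
    (_ : CompleteSpace X), BConvex X ∧
    ∃ (Ω : Type) (_ : MeasurableSpace Ω) (μ : Measure Ω) (_ : IsProbabilityMeasure μ)
      (Ψ : ℕ → Ω → BC X) (U : BC X), IndepWithExpectation μ Ψ U ∧
      (∃ r : ℝ, ∀ n ω, ∀ x ∈ (Ψ n ω).carrier, ‖x‖ ≤ r) ∧ IsCompact U.carrier ∧
      ∀ ω, ¬ Tendsto (fun n => Metric.hausdorffDist (avg Ψ n ω) U.carrier) atTop (𝓝 0) :=
  ⟨H, inferInstance, inferInstance, inferInstance, bconvex_H, Om 1, inferInstance, prob 1,
    inferInstance, Psi 1, UU 1, indep_seq 1, ⟨1, norm_Psi le_rfl⟩, compact_UU 1, not_tendsto⟩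

theorem limsup_gt {c : ℕ} (hc : 1 ≤ c) (ω : Om c) : ENNReal.ofReal (1 / 4) <
    limsup (fun n => ⨆ a ∈ avg (Psi c) n ω, ‖a‖ₑ) atTop := by
  have h1 : ENNReal.ofReal (9 / 32) ≤ limsup (fun n => ⨆ a ∈ avg (Psi c) n ω, ‖a‖ₑ) atTop := by
    apply le_limsup_of_frequently_le'
    have h2 : ∃ᶠ b : ℕ in atTop, ENNReal.ofReal (9 / 32) ≤
        ⨆ a ∈ avg (Psi c) (4 ^ (b + 1) - 1) ω, ‖a‖ₑ := by
      refine (Eventually.of_forall fun b => ?_).frequently
      obtain ⟨a, ha, h⟩ := far_norm hc b ω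
      refine le_trans ?_ (le_iSup₂_of_le a ha le_rfl)
      rw [← ofReal_norm]
      exact ENNReal.ofReal_le_ofReal h
    exact tendsto_N.frequently h2
  refine lt_of_lt_of_le ?_ h1
  exact (ENNReal.ofReal_lt_ofReal_iff (by norm_num)).2 (by norm_num)

/-- small expectation does not make the averages small -/
theorem no_small : ∃ (X : Type) (_ : NormedAddCommGroup X) (_ : InnerProductSpace ℝ X)
    (_ : CompleteSpace X), BConvex X ∧ ∃ ε : ℝ, 0 < ε ∧ ∀ δ : ℝ, 0 < δ →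
    ∃ (Ω : Type) (_ : MeasurableSpace Ω) (μ : Measure Ω) (_ : IsProbabilityMeasure μ)
      (Ψ : ℕ → Ω → BC X) (U : BC X), IndepWithExpectation μ Ψ U ∧
      (∀ x ∈ U.carrier, ‖x‖ ≤ δ) ∧ (∀ n ω, ∀ x ∈ (Ψ n ω).carrier, ‖x‖ ≤ 1) ∧
      ∀ ω, ENNReal.ofReal ε < limsup (fun n => ⨆ a ∈ avg Ψ n ω, ‖a‖ₑ) atTop := by
  refine ⟨H, inferInstance, inferInstance, inferInstance, bconvex_H, 1 / 4, by norm_num, ?_⟩
  intro δ hδ
  obtain ⟨k, hk⟩ := exists_pow_lt_of_lt_one hδ (show (1 / 2 : ℝ) < 1 by norm_num)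
  refine ⟨Om (k + 1), inferInstance, prob (k + 1), inferInstance, Psi (k + 1), UU (k + 1),
    indep_seq (k + 1), ?_, norm_Psi (by omega), limsup_gt (by omega)⟩
  intro x hx
  refine (norm_UU (k + 1) x hx).trans (le_trans ?_ hk.le)
  exact pow_le_pow_of_le_one (by norm_num) (by norm_num) (by omega)

end Pool.Agent.R326.RS
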