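import Pool.Agent.R326.RS.Mink

/-!
# The construction in a Hilbert space
-/

set_option autoImplicit false

namespace Pool.Agent.R326.RS

open MeasureTheory ProbabilityTheory Filter Topology Set
open scoped Pointwise ENNReal BoundedContinuousFunction

/-- the index set of the orthonormal basis -/
abbrev Idx : Type := Finset (ℕ × ℕ)

/-- the Hilbert space -/
abbrev H : Type := lp (fun _ : Idx => ℝ) 2

lemma bconvex_H : BConvex H := by
  refine ⟨2, le_rfl, 1 / 4, by norm_num, fun x hx => ?_⟩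
  have h0 := hx 0
  have h1 := hx 1
  have hp := parallelogram_law_with_norm ℝ (x 0) (x 1)
  have hp' : ‖x 0 + x 1‖ ^ 2 + ‖x 0 - x 1‖ ^ 2 ≤ 4 := by
    nlinarith [norm_nonneg (x 0), norm_nonneg (x 1)]
  rcases le_total ‖x 0 + x 1‖ ‖x 0 - x 1‖ with h | h
  · refine ⟨fun _ => 1, fun _ => Or.inl rfl, ?_⟩
    rw [Fin.sum_univ_two, one_smul, one_smul]
    push_cast
    by_contra hcon
    push Not at hcon
    nlinarith [norm_nonneg (x 0 + x 1)]
  · refine ⟨![1, -1], fun i => by fin_cases i <;> simp, ?_⟩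
    rw [Fin.sum_univ_two]
    simp only [Matrix.cons_val_zero, Matrix.cons_val_one, one_smul, neg_smul]
    rw [← sub_eq_add_neg]
    push_cast
    by_contra hcon
    push Not at hcon
    nlinarith [norm_nonneg (x 0 - x 1)]

/-- coordinate functionals -/
noncomputable def ev (g : Idx) : StrongDual ℝ H :=
  LinearMap.mkContinuous
    { toFun := fun x : H => x g
      map_add' := fun x y => rfl
      map_smul' := fun a x => rfl } 1 (fun x => by
        rw [one_mul]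
        exact lp.norm_apply_le_norm (by norm_num) x g)

lemma ev_apply (g : Idx) (x : H) : ev g x = x g := rfl

lemma abs_ev_le (g : Idx) (x : H) : |ev g x| ≤ ‖x‖ := by
  rw [ev_apply]
  exact lp.norm_apply_le_norm (by norm_num) x g

/-- `(1/2) e_g` -/
noncomputable def hv (g : Idx) : H := lp.single 2 g (1 / 2 : ℝ)

lemma norm_hv (g : Idx) : ‖hv g‖ = 1 / 2 := by
  rw [hv, lp.norm_single (by norm_num)]
  norm_num

lemma hv_apply (g h : Idx) : (hv g : Idx → ℝ) h = if h = g then 1 / 2 else 0 := by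
  rw [hv, lp.single_apply]
  by_cases h1 : h = g
  · subst h1; simp
  · simp [h1]

/-- disjoint supports -/
lemma inner_eq_zero {x y : H} (h : ∀ g : Idx, x g = 0 ∨ y g = 0) : inner ℝ x y = 0 := by
  rw [lp.inner_eq_tsum]
  have : ∀ g, inner ℝ (x g) (y g) = 0 := by
    intro g
    rcases h g with h | h <;> rw [h] <;> simp
  rw [tsum_congr this, tsum_zero]

lemma norm_sum_sq {m : ℕ} (u : Fin m → H) (h : ∀ i j, i ≠ j → inner ℝ (u i) (u j) = 0) :
    ‖∑ i, u i‖ ^ 2 = ∑ i, ‖u i‖ ^ 2 := by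
  rw [← real_inner_self_eq_norm_sq, sum_inner]
  apply Finset.sum_congr rfl
  intro i _
  rw [inner_sum, Finset.sum_eq_single i]
  · exact real_inner_self_eq_norm_sq _
  · intro j _ hj
    exact h i j (Ne.symm hj)
  · intro hi
    exact absurd (Finset.mem_univ i) hi

/-- the sets of indices, `E` finite -/
noncomputable def Vs (E : Set Idx) : Set H := convexHull ℝ (insert 0 (hv '' E))

section Vs

variable {E : Set Idx}

lemma Vs_ne : (Vs E).Nonempty := ⟨0, subset_convexHull ℝ _ (mem_insert _ _)⟩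

lemma Vs_convex : Convex ℝ (Vs E) := convex_convexHull ℝ _

lemma Vs_compact (hE : E.Finite) : IsCompact (Vs E) :=
  Set.Finite.isCompact_convexHull ℝ ((hE.image _).insert 0)

lemma Vs_norm : ∀ x ∈ Vs E, ‖x‖ ≤ 1 / 2 := by
  intro x hx
  have : Vs E ⊆ Metric.closedBall (0 : H) (1 / 2) := by
    apply convexHull_min _ (convex_closedBall _ _)
    rintro y (rfl | ⟨g, _, rfl⟩)
    · simp
    · simp [norm_hv]
  simpa using this hx

open Classical in
lemma Vs_apply : ∀ x ∈ Vs E, ∀ g : Idx, 0 ≤ x g ∧ x g ≤ if g ∈ E then 1 / 2 else 0 := by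
  intro x hx g
  have h1 : Vs E ⊆ {x : H | 0 ≤ x g ∧ x g ≤ if g ∈ E then 1 / 2 else 0} := by
    apply convexHull_min
    · rintro y (rfl | ⟨g', hg', rfl⟩)
      · constructor
        · simp
        · show (0 : ℝ) ≤ _
          split_ifs <;> norm_num
      · show 0 ≤ (hv g' : Idx → ℝ) g ∧ (hv g' : Idx → ℝ) g ≤ _
        rw [hv_apply]
        by_cases h : g = g'
        · subst h
          rw [if_pos rfl, if_pos hg']
          norm_num
        · rw [if_neg h]
          refine ⟨le_rfl, ?_⟩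
          split_ifs <;> norm_num
    · rintro y ⟨hy1, hy2⟩ z ⟨hz1, hz2⟩ a b ha hb hab
      show 0 ≤ a * y g + b * z g ∧ a * y g + b * z g ≤ _
      refine ⟨by positivity, ?_⟩
      calc a * y g + b * z g ≤ a * (if g ∈ E then 1 / 2 else 0) +
            b * (if g ∈ E then 1 / 2 else 0) := by gcongr
        _ = if g ∈ E then 1 / 2 else 0 := by rw [← add_mul, hab, one_mul]
  exact h1 hx

open Classical in
lemma Vs_sup (g : Idx) : sSup (ev g '' Vs E) = if g ∈ E then 1 / 2 else 0 := by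
  have h : IsGreatest (ev g '' Vs E) (if g ∈ E then 1 / 2 else 0) := by
    constructor
    · by_cases hg : g ∈ E
      · rw [if_pos hg]
        refine ⟨hv g, subset_convexHull ℝ _ (mem_insert_of_mem _ ⟨g, hg, rfl⟩), ?_⟩
        rw [ev_apply, hv_apply, if_pos rfl]
      · rw [if_neg hg]
        exact ⟨0, subset_convexHull ℝ _ (mem_insert _ _), by simp⟩
    · rintro _ ⟨x, hx, rfl⟩
      exact (Vs_apply x hx g).2
  exact h.csSup_eq

end Vs

/-! ### the blocks -/

/-- the times in block `b` -/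
def T (b : ℕ) : Finset ℕ := Finset.Ico (4 ^ b - 1) (4 ^ (b + 1) - 1)

/-- the block of a time -/
def β (n : ℕ) : ℕ := Nat.log 4 (n + 1)

lemma mem_T {b n : ℕ} : n ∈ T b ↔ β n = b := by
  rw [T, Finset.mem_Ico, β, Nat.log_eq_iff (Or.inr ⟨by norm_num, by omega⟩)]
  have h1 : 1 ≤ 4 ^ b := Nat.one_le_pow _ _ (by norm_num)
  have h2 : 1 ≤ 4 ^ (b + 1) := Nat.one_le_pow _ _ (by norm_num)
  omega

/-- the sample space -/
abbrev Om (c : ℕ) : Type := (n : ℕ) → Fin (4 ^ (n + c))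

/-- the graph of `ω` on block `b` -/
def gr (c b : ℕ) (ω : Om c) : Idx := (T b).image fun n => (n, (ω n : ℕ))

lemma mem_gr {c b : ℕ} {ω : Om c} {n m : ℕ} : (n, m) ∈ gr c b ω ↔ n ∈ T b ∧ (ω n : ℕ) = m := by
  rw [gr, Finset.mem_image]
  constructor
  · rintro ⟨n', h1, h2⟩
    rw [Prod.mk.injEq] at h2
    obtain ⟨rfl, rfl⟩ := h2
    exact ⟨h1, rfl⟩
  · rintro ⟨h1, h2⟩
    exact ⟨n, h1, by rw [h2]⟩

/-- the indices of the vectors in `V n m` -/
def Ev (c n : ℕ) (m : Fin (4 ^ (n + c))) : Set Idx :=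
  {g | ∃ ω : Om c, ω n = m ∧ g = gr c (β n) ω}

lemma Ev_finite (c n : ℕ) (m : Fin (4 ^ (n + c))) : (Ev c n m).Finite := by
  apply (Finset.finite_toSet ((T (β n) ×ˢ Finset.range (4 ^ (4 ^ (β n + 1) + c))).powerset)).subset
  rintro g ⟨ω, _, rfl⟩
  rw [Finset.mem_coe, Finset.mem_powerset]
  rintro ⟨a, k⟩ h
  rw [mem_gr] at h
  rw [Finset.mem_product, Finset.mem_range]
  refine ⟨h.1, ?_⟩
  have h1 : a < 4 ^ (β n + 1) := by
    have := Finset.mem_Ico.1 h.1
    omega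
  calc k = (ω a : ℕ) := h.2.symm
    _ < 4 ^ (a + c) := (ω a).2
    _ ≤ 4 ^ (4 ^ (β n + 1) + c) := Nat.pow_le_pow_right (by norm_num) (by omega)

lemma mem_Ev_iff {c b n : ℕ} {m : Fin (4 ^ (n + c))} {ω : Om c} :
    gr c b ω ∈ Ev c n m ↔ n ∈ T b ∧ ω n = m := by
  constructor
  · rintro ⟨ω', h1, h2⟩
    have h3 : (n, (m : ℕ)) ∈ gr c (β n) ω' := mem_gr.2 ⟨mem_T.2 rfl, by rw [h1]⟩
    rw [← h2, mem_gr] at h3
    exact ⟨h3.1, Fin.ext h3.2⟩
  · rintro ⟨h1, h2⟩
    refine ⟨ω, h2, ?_⟩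
    rw [mem_T.1 h1]

lemma Ev_disjoint {c n : ℕ} {m m' : Fin (4 ^ (n + c))} (h : m ≠ m') {g : Idx}
    (hg : g ∈ Ev c n m) : g ∉ Ev c n m' := by
  obtain ⟨ω, h1, rfl⟩ := hg
  intro hg'
  exact h (h1.symm.trans (mem_Ev_iff.1 hg').2)

/-! ### the sets -/

/-- the values of the random part -/
noncomputable def V (c n : ℕ) (m : Fin (4 ^ (n + c))) : Set H := Vs (Ev c n m)

/-- their mean -/
noncomputable def Us (c n : ℕ) : Set H :=
  mink fun m : Fin (4 ^ (n + c)) => (1 / (4 : ℝ) ^ (n + c)) • V c n m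

lemma good_V (c n : ℕ) : Good (fun m : Fin (4 ^ (n + c)) => (1 / (4 : ℝ) ^ (n + c)) • V c n m)
    (fun _ => (1 / (4 : ℝ) ^ (n + c)) * (1 / 2)) where
  ne := fun m => Vs_ne.smul_set
  cpt := fun m => (Vs_compact (Ev_finite c n m)).smul _
  cvx := fun m => Vs_convex.smul _
  bd := by
    rintro m _ ⟨x, hx, rfl⟩
    show ‖(1 / (4 : ℝ) ^ (n + c)) • x‖ ≤ _
    rw [norm_smul, Real.norm_of_nonneg (by positivity)]
    exact mul_le_mul_of_nonneg_left (Vs_norm x hx) (by positivity)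
  sm := Summable.of_finite

lemma Us_norm (c n : ℕ) : ∀ x ∈ Us c n, ‖x‖ ≤ (1 / 2) * (1 / 2) ^ (n + c) := by
  rintro x ⟨u, hu, hx⟩
  have hx' : x = ∑ m, u m := by
    rw [← hx.tsum_eq, tsum_fintype]
  have h1 : ‖x‖ ^ 2 = ∑ m, ‖u m‖ ^ 2 := by
    rw [hx']
    apply norm_sum_sq
    intro i j hij
    obtain ⟨v, hv, hvi⟩ := hu i
    obtain ⟨w, hw, hwj⟩ := hu j
    apply inner_eq_zero
    intro g
    by_cases hg : g ∈ Ev c n i
    · right
      have h2 := Vs_apply w hw g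
      rw [if_neg (Ev_disjoint hij hg)] at h2
      rw [← hwj]
      show (1 / (4 : ℝ) ^ (n + c)) * w g = 0
      rw [le_antisymm h2.2 h2.1, mul_zero]
    · left
      have h2 := Vs_apply v hv g
      rw [if_neg hg] at h2
      rw [← hvi]
      show (1 / (4 : ℝ) ^ (n + c)) * v g = 0
      rw [le_antisymm h2.2 h2.1, mul_zero]
  have h2 : ∑ m : Fin (4 ^ (n + c)), ‖u m‖ ^ 2 ≤
      ∑ _m : Fin (4 ^ (n + c)), ((1 / (4 : ℝ) ^ (n + c)) * (1 / 2)) ^ 2 := by
    apply Finset.sum_le_sum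
    intro m _
    have := (good_V c n).bd m _ (hu m)
    gcongr
  rw [Finset.sum_const, Finset.card_univ, Fintype.card_fin, nsmul_eq_mul] at h2
  have h3 : ((4 ^ (n + c) : ℕ) : ℝ) * ((1 / (4 : ℝ) ^ (n + c)) * (1 / 2)) ^ 2 =
      ((1 / 2) * (1 / 2) ^ (n + c)) ^ 2 := by
    have h4 : (4 : ℝ) ^ (n + c) = 2 ^ (n + c) * 2 ^ (n + c) := by
      rw [← mul_pow]; norm_num
    have h5 : (2 : ℝ) ^ (n + c) ≠ 0 := by positivity
    push_cast
    rw [h4, one_div_pow]
    field_simp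
  rw [h3] at h2
  exact le_of_sq_le_sq (by rw [h1]; exact h2) (by positivity)

end Pool.Agent.R326.RS
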