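import Pool.Agent.R326.RS.Hilb

/-!
# The counterexample
-/

set_option autoImplicit false

namespace Pool.Agent.R326.RS

open MeasureTheory ProbabilityTheory Filter Topology Set
open scoped Pointwise ENNReal BoundedContinuousFunction

variable (c : ℕ)

/-- the radii -/
noncomputable def rad (n : ℕ) : ℝ := (1 / 2) * (1 / 2) ^ (n + c)

lemma hasSum_rad : HasSum (rad c) ((1 / 2) ^ c) := by
  have h := (hasSum_geometric_two).mul_left ((1 / 2 : ℝ) * (1 / 2) ^ c)
  have e1 : rad c = fun i => 1 / 2 * (1 / 2) ^ c * (1 / 2) ^ i := by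
    funext n
    rw [rad, pow_add]
    ring
  rw [show (1 / 2 : ℝ) * (1 / 2) ^ c * 2 = (1 / 2) ^ c by ring] at h
  rw [e1]
  exact h

lemma good_U : Good (Us c) (rad c) where
  ne := fun n => (good_V c n).nonempty
  cpt := fun n => (good_V c n).compact
  cvx := fun n => (good_V c n).convex
  bd := fun n => Us_norm c n
  sm := (hasSum_rad c).summable

lemma good_upd (n : ℕ) (m : Fin (4 ^ (n + c))) :
    Good (Function.update (Us c) n (V c n m)) (Function.update (rad c) n (1 / 2)) where
  ne := by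
    intro i
    by_cases h : i = n
    · subst h; rw [Function.update_self]; exact Vs_ne
    · rw [Function.update_of_ne h]; exact (good_U c).ne i
  cpt := by
    intro i
    by_cases h : i = n
    · subst h; rw [Function.update_self]; exact Vs_compact (Ev_finite c i m)
    · rw [Function.update_of_ne h]; exact (good_U c).cpt i
  cvx := by
    intro i
    by_cases h : i = n
    · subst h; rw [Function.update_self]; exact Vs_convex
    · rw [Function.update_of_ne h]; exact (good_U c).cvx i
  bd := by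
    intro i
    by_cases h : i = n
    · subst h; rw [Function.update_self, Function.update_self]; exact Vs_norm
    · rw [Function.update_of_ne h, Function.update_of_ne h]; exact (good_U c).bd i
  sm := ((hasSum_rad c).update n (1 / 2)).summable

/-- the common expectation -/
noncomputable def UU : BC H := (good_U c).toBC

/-- the values of the random sets -/
noncomputable def PsiV (n : ℕ) (m : Fin (4 ^ (n + c))) : BC H := (good_upd c n m).toBC

/-- the random sets -/
noncomputable def Psi (n : ℕ) (ω : Om c) : BC H := PsiV c n (ω n)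

lemma sup_Psi (n : ℕ) (m : Fin (4 ^ (n + c))) (f : StrongDual ℝ H) :
    sSup (f '' (PsiV c n m).carrier) = sSup (f '' V c n m) - sSup (f '' Us c n) +
      sSup (f '' (UU c).carrier) := by
  have h1 := (good_upd c n m).sup f
  have h2 := ((good_U c).sup f).update n (sSup (f '' V c n m))
  have h3 : (fun i => sSup (f '' Function.update (Us c) n (V c n m) i)) =
      Function.update (fun i => sSup (f '' Us c i)) n (sSup (f '' V c n m)) := by
    funext i
    by_cases h : i = n
    · subst h; rw [Function.update_self, Function.update_self]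
    · rw [Function.update_of_ne h, Function.update_of_ne h]
  rw [h3] at h1
  exact h1.unique h2

lemma sup_Us (n : ℕ) (f : StrongDual ℝ H) :
    sSup (f '' Us c n) = ∑ m, (1 / (4 : ℝ) ^ (n + c)) * sSup (f '' V c n m) := by
  have h1 := (good_V c n).sup f
  have h2 : ∀ m : Fin (4 ^ (n + c)), sSup (f '' ((1 / (4 : ℝ) ^ (n + c)) • V c n m)) =
      (1 / (4 : ℝ) ^ (n + c)) * sSup (f '' V c n m) := by
    intro m
    rw [image_smul_comm f _ _ (fun x => map_smul f _ x), Real.sSup_smul_of_nonneg (by positivity),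
      smul_eq_mul]
  simp only [h2] at h1
  exact h1.unique (hasSum_fintype _)

/-- the uniform measures -/
noncomputable def unif (n : ℕ) : Measure (Fin (4 ^ (n + c))) :=
  (PMF.uniformOfFintype (Fin (4 ^ (n + c)))).toMeasure

instance (n : ℕ) : IsProbabilityMeasure (unif c n) := by
  unfold unif; infer_instance

/-- the probability measure on the sample space -/
noncomputable def prob : Measure (Om c) := Measure.infinitePi (unif c)

instance : IsProbabilityMeasure (prob c) := by
  unfold prob; infer_instance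

lemma sum_PsiV (n : ℕ) :
    ∑ m : Fin (4 ^ (n + c)), (1 / (4 : ℝ) ^ (n + c)) • R (PsiV c n m) = R (UU c) := by
  ext f
  have h1 : (∑ m : Fin (4 ^ (n + c)), (1 / (4 : ℝ) ^ (n + c)) • R (PsiV c n m)) f =
      ∑ m : Fin (4 ^ (n + c)), (1 / (4 : ℝ) ^ (n + c)) * R (PsiV c n m) f := by
    rw [BoundedContinuousFunction.coe_sum, Finset.sum_apply]
    rfl
  rw [h1]
  simp only [R_apply, sup_Psi]
  have h2 := sup_Us c n (f : StrongDual ℝ H)
  have h3 : ∑ _m : Fin (4 ^ (n + c)), (1 / (4 : ℝ) ^ (n + c)) = 1 := by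
    rw [Finset.sum_const, Finset.card_univ, Fintype.card_fin, nsmul_eq_mul]
    push_cast
    field_simp
  have h4 : ∀ m : Fin (4 ^ (n + c)), (1 / (4 : ℝ) ^ (n + c)) *
      (sSup ((f : StrongDual ℝ H) '' V c n m) - sSup ((f : StrongDual ℝ H) '' Us c n) +
        sSup ((f : StrongDual ℝ H) '' (UU c).carrier)) =
      (1 / (4 : ℝ) ^ (n + c)) * sSup ((f : StrongDual ℝ H) '' V c n m) +
      (1 / (4 : ℝ) ^ (n + c)) * (sSup ((f : StrongDual ℝ H) '' (UU c).carrier) -
        sSup ((f : StrongDual ℝ H) '' Us c n)) := by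
    intro m; ring
  rw [Finset.sum_congr rfl fun m _ => h4 m, Finset.sum_add_distrib, ← Finset.sum_mul, h3, ← h2]
  ring

lemma indep_seq : IndepWithExpectation (prob c) (Psi c) (UU c) where
  stronglyMeasurable := by
    intro n
    have h1 : StronglyMeasurable fun m : Fin (4 ^ (n + c)) => R (PsiV c n m) :=
      StronglyMeasurable.of_discrete
    exact h1.comp_measurable (measurable_pi_apply n)
  integrable := by
    intro n
    have h1 : Integrable (fun m : Fin (4 ^ (n + c)) => R (PsiV c n m)) (unif c n) :=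
      Integrable.of_finite
    exact ((measurePreserving_eval_infinitePi (unif c) n).integrable_comp
      h1.aestronglyMeasurable).2 h1
  integral_eq := by
    intro n
    have h1 : ∫ ω, R (Psi c n ω) ∂(prob c) =
        ∫ m, R (PsiV c n m) ∂(unif c n) := by
      have hm := measurePreserving_eval_infinitePi (unif c) n
      have h2 : StronglyMeasurable fun m : Fin (4 ^ (n + c)) => R (PsiV c n m) :=
        StronglyMeasurable.of_discrete
      rw [← hm.map_eq, integral_map hm.measurable.aemeasurable h2.aestronglyMeasurable]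
      rfl
    rw [h1, unif, PMF.integral_eq_sum, ← sum_PsiV c n]
    apply Finset.sum_congr rfl
    intro m _
    congr 1
    rw [PMF.uniformOfFintype_apply, Fintype.card_fin]
    simp
  indep := by
    let _ : MeasurableSpace (Metric.sphere (0 : StrongDual ℝ H) 1 →ᵇ ℝ) := borel _
    exact iIndepFun_infinitePi (P := unif c)
      (X := fun n (m : Fin (4 ^ (n + c))) => R (PsiV c n m)) (fun n => measurable_of_finite _)

lemma norm_UU : ∀ x ∈ (UU c).carrier, ‖x‖ ≤ (1 / 2) ^ c := fun _ hx =>
  (good_U c).norm_le (hasSum_rad c) hx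

lemma compact_UU : IsCompact (UU c).carrier := (good_U c).compact

variable {c}

lemma norm_Psi (hc : 1 ≤ c) (n : ℕ) (ω : Om c) : ∀ x ∈ (Psi c n ω).carrier, ‖x‖ ≤ 1 := by
  intro x hx
  have h1 := (good_upd c n (ω n)).norm_le ((hasSum_rad c).update n (1 / 2)) hx
  have h2 : 0 ≤ rad c n := by unfold rad; positivity
  have h3 : (1 / 2 : ℝ) ^ c ≤ 1 / 2 := by
    calc (1 / 2 : ℝ) ^ c ≤ (1 / 2) ^ 1 := pow_le_pow_of_le_one (by norm_num) (by norm_num) hc
      _ = 1 / 2 := pow_one _
  linarith

/-- the deviations -/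
lemma dev (hc : 1 ≤ c) (b : ℕ) (ω : Om c) (n : ℕ) :
    (if n ∈ T b then 3 / 8 else 0) ≤
      sSup (ev (gr c b ω) '' V c n (ω n)) - sSup (ev (gr c b ω) '' Us c n) := by
  classical
  rw [sup_Us]
  simp only [V, Vs_sup, mem_Ev_iff]
  by_cases hn : n ∈ T b
  · rw [if_pos hn, if_pos ⟨hn, trivial⟩]
    have h1 : ∑ m : Fin (4 ^ (n + c)), (1 / (4 : ℝ) ^ (n + c)) *
        (if n ∈ T b ∧ ω n = m then 1 / 2 else 0) = (1 / (4 : ℝ) ^ (n + c)) * (1 / 2) := by
      rw [Finset.sum_eq_single (ω n)]
      · rw [if_pos ⟨hn, rfl⟩]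
      · intro m _ hm
        rw [if_neg (fun h => hm h.2.symm), mul_zero]
      · intro h; exact absurd (Finset.mem_univ _) h
    rw [h1]
    have h2 : (1 / (4 : ℝ) ^ (n + c)) ≤ 1 / 4 := by
      apply one_div_le_one_div_of_le (by norm_num)
      calc (4 : ℝ) = 4 ^ 1 := (pow_one _).symm
        _ ≤ 4 ^ (n + c) := pow_le_pow_right₀ (by norm_num) (by omega)
    linarith
  · rw [if_neg hn, if_neg (fun h => hn h.1)]
    have h1 : ∑ m : Fin (4 ^ (n + c)), (1 / (4 : ℝ) ^ (n + c)) *
        (if n ∈ T b ∧ ω n = m then 1 / 2 else 0) = 0 := by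
      apply Finset.sum_eq_zero
      intro m _
      rw [if_neg (fun h => hn h.1), mul_zero]
    rw [h1]
    norm_num

/-- the main estimate -/
lemma exists_far (hc : 1 ≤ c) (b : ℕ) (ω : Om c) :
    ∃ a ∈ avg (Psi c) (4 ^ (b + 1) - 1) ω,
      9 / 32 + sSup (ev (gr c b ω) '' (UU c).carrier) ≤ ev (gr c b ω) a := by
  set f := ev (gr c b ω) with hf
  have h1 : ∀ n, ∃ a ∈ (Psi c n ω).carrier, sSup (f '' (Psi c n ω).carrier) = f a := by
    intro n
    obtain ⟨a, ha, hfa⟩ := (good_upd c n (ω n)).compact.exists_sSup_image_eq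
      (good_upd c n (ω n)).nonempty f.continuous.continuousOn
    exact ⟨a, ha, hfa⟩
  choose a ha hfa using h1
  refine ⟨_, mem_avg ha, ?_⟩
  set N := 4 ^ (b + 1) - 1 with hN
  have hpow : 1 ≤ 4 ^ b := Nat.one_le_pow _ _ (by norm_num)
  have hN' : N + 1 = 4 * 4 ^ b := by
    rw [hN, pow_succ]; omega
  have hNpos : 0 < N := by omega
  have hNR : (0 : ℝ) < N := by exact_mod_cast hNpos
  rw [map_smul, map_sum, smul_eq_mul]
  have h2 : ∀ n ∈ Finset.range N, (if n ∈ T b then (3 / 8 : ℝ) else 0) +
      sSup (f '' (UU c).carrier) ≤ f (a n) := by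
    intro n _
    rw [← hfa n]
    have := dev hc b ω n
    have h3 := sup_Psi c n (ω n) f
    rw [Psi, h3]
    linarith
  have h3 := Finset.sum_le_sum h2
  rw [Finset.sum_add_distrib, Finset.sum_const, Finset.card_range, nsmul_eq_mul] at h3
  have h4 : ∑ n ∈ Finset.range N, (if n ∈ T b then (3 / 8 : ℝ) else 0) = (3 * 4 ^ b) * (3 / 8) := by
    rw [← Finset.sum_filter, Finset.sum_const, nsmul_eq_mul]
    congr 1
    have h5 : (Finset.range N).filter (fun n => n ∈ T b) = T b := by
      ext n
      rw [Finset.mem_filter, Finset.mem_range, T, Finset.mem_Ico]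
      omega
    rw [h5, T, Nat.card_Ico]
    have h6 : 4 ^ (b + 1) - 1 - (4 ^ b - 1) = 3 * 4 ^ b := by
      rw [pow_succ]; omega
    rw [h6]
    push_cast
    ring
  rw [h4] at h3
  have h5 : (N : ℝ) + 1 = 4 * 4 ^ b := by exact_mod_cast hN'
  have h6 : (N : ℝ) * (9 / 32) ≤ (3 * 4 ^ b) * (3 / 8) := by nlinarith
  have h7 : (N : ℝ) * (9 / 32 + sSup (f '' (UU c).carrier)) ≤
      ∑ i ∈ Finset.range N, f (a i) := by
    rw [mul_add]
    linarith
  rw [one_div, inv_mul_eq_div, le_div_iff₀ hNR]
  linarith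

lemma sup_UU_nonneg (g : Idx) : 0 ≤ sSup (ev g '' (UU c).carrier) := by
  have h1 := (good_U c).sup (ev g)
  refine h1.nonneg fun n => ?_
  rw [sup_Us]
  apply Finset.sum_nonneg
  intro m _
  classical
  rw [V, Vs_sup]
  split_ifs <;> positivity

theorem far_norm (hc : 1 ≤ c) (b : ℕ) (ω : Om c) :
    ∃ a ∈ avg (Psi c) (4 ^ (b + 1) - 1) ω, 9 / 32 ≤ ‖a‖ := by
  obtain ⟨a, ha, h⟩ := exists_far hc b ω
  refine ⟨a, ha, ?_⟩
  have h1 := sup_UU_nonneg (c := c) (gr c b ω)
  have h2 := abs_ev_le (gr c b ω) a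
  have h3 := le_abs_self (ev (gr c b ω) a)
  linarith

theorem far_dist (hc : 1 ≤ c) (b : ℕ) (ω : Om c) :
    9 / 32 ≤ Metric.hausdorffDist (avg (Psi c) (4 ^ (b + 1) - 1) ω) (UU c).carrier := by
  obtain ⟨a, ha, h⟩ := exists_far hc b ω
  have hb : Bornology.IsBounded (avg (Psi c) (4 ^ (b + 1) - 1) ω) := by
    rw [isBounded_iff_forall_norm_le]
    exact ⟨1, fun a ha => norm_le_of_mem_avg (fun n ω => norm_Psi hc n ω) ha⟩
  have h1 := le_hausdorffDist hb (compact_UU c) (UU c).nonempty (abs_ev_le (gr c b ω)) ha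
  linarith

end Pool.Agent.R326.RS
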