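import Pool.Agent.R326.RS.Defs

/-!
# Minkowski sums of countably many compact convex sets
-/

set_option autoImplicit false

namespace Pool.Agent.R326.RS

open MeasureTheory ProbabilityTheory Filter Topology Set
open scoped Pointwise ENNReal BoundedContinuousFunction

universe u v

variable {X : Type u} [NormedAddCommGroup X] [NormedSpace ℝ X] {ι : Type}

/-- the Minkowski sum of a family of sets -/
def mink (A : ι → Set X) : Set X := {x | ∃ u : ι → X, (∀ i, u i ∈ A i) ∧ HasSum u x}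

/-- nonempty compact convex sets with summable norms -/
structure Good (A : ι → Set X) (r : ι → ℝ) : Prop where
  ne : ∀ i, (A i).Nonempty
  cpt : ∀ i, IsCompact (A i)
  cvx : ∀ i, Convex ℝ (A i)
  bd : ∀ i, ∀ a ∈ A i, ‖a‖ ≤ r i
  sm : Summable r

namespace Good

variable {A : ι → Set X} {r : ι → ℝ}

lemma convex (hA : Good A r) : Convex ℝ (mink A) := by
  rintro x ⟨u, hu, hx⟩ y ⟨v, hv, hy⟩ a b ha hb hab
  exact ⟨fun i => a • u i + b • v i, fun i => hA.cvx i (hu i) (hv i) ha hb hab,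
    (hx.const_smul a).add (hy.const_smul b)⟩

lemma norm_le (hA : Good A r) {R : ℝ} (hR : HasSum r R) {x : X} (hx : x ∈ mink A) : ‖x‖ ≤ R := by
  obtain ⟨u, hu, hx⟩ := hx
  exact hx.norm_le_of_bounded hR fun i => hA.bd i _ (hu i)

variable [CompleteSpace X]

lemma summable (hA : Good A r) {u : ι → X} (hu : ∀ i, u i ∈ A i) : Summable u :=
  Summable.of_norm_bounded hA.sm fun i => hA.bd i _ (hu i)

lemma nonempty (hA : Good A r) : (mink A).Nonempty := by
  choose u hu using hA.ne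
  exact ⟨_, u, hu, (hA.summable hu).hasSum⟩

lemma compact (hA : Good A r) : IsCompact (mink A) := by
  have h1 : IsCompact (Set.pi univ A) := isCompact_univ_pi hA.cpt
  have h2 : ContinuousOn (fun u : ι → X => ∑' i, u i) (Set.pi univ A) :=
    continuousOn_tsum (fun i => (continuous_apply i).continuousOn) hA.sm
      (fun i u hu => hA.bd i _ (hu i (mem_univ i)))
  have h3 : mink A = (fun u : ι → X => ∑' i, u i) '' (Set.pi univ A) := by
    ext x
    constructor
    · rintro ⟨u, hu, hx⟩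
      exact ⟨u, fun i _ => hu i, hx.tsum_eq⟩
    · rintro ⟨u, hu, rfl⟩
      exact ⟨u, fun i => hu i (mem_univ i), (hA.summable fun i => hu i (mem_univ i)).hasSum⟩
  rw [h3]
  exact h1.image_of_continuousOn h2

/-- the support function of a Minkowski sum -/
lemma sup (hA : Good A r) (f : StrongDual ℝ X) :
    HasSum (fun i => sSup (f '' A i)) (sSup (f '' mink A)) := by
  have h1 : ∀ i, ∃ a ∈ A i, sSup (f '' A i) = f a ∧ ∀ b ∈ A i, f b ≤ f a := fun i =>
    (hA.cpt i).exists_sSup_image_eq_and_ge (hA.ne i) f.continuous.continuousOn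
  choose a ha hfa hmax using h1
  have h2 : HasSum a (∑' i, a i) := (hA.summable ha).hasSum
  have h3 : HasSum (fun i => f (a i)) (f (∑' i, a i)) := f.hasSum h2
  have h4 : IsGreatest (f '' mink A) (f (∑' i, a i)) := by
    refine ⟨⟨_, ⟨a, ha, h2⟩, rfl⟩, ?_⟩
    rintro _ ⟨x, ⟨u, hu, hx⟩, rfl⟩
    exact hasSum_le (fun i => hmax i _ (hu i)) (f.hasSum hx) h3
  rw [h4.csSup_eq]
  simpa only [hfa] using h3

/-- the Minkowski sum as an element of `BC X` -/
def toBC (hA : Good A r) : BC X where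
  carrier := mink A
  nonempty := hA.nonempty
  convex := hA.convex
  bounded := hA.compact.isBounded

end Good

/-- lower bound for the Hausdorff distance by support functions -/
lemma le_hausdorffDist {A B : Set X} (hA : Bornology.IsBounded A) (hB : IsCompact B)
    (hBn : B.Nonempty) {f : StrongDual ℝ X} (hf : ∀ x, |f x| ≤ ‖x‖) {a : X} (ha : a ∈ A) :
    f a - sSup (f '' B) ≤ Metric.hausdorffDist A B := by
  have h1 := Metric.infDist_le_hausdorffDist_of_mem ha
    (Metric.hausdorffEDist_ne_top_of_nonempty_of_bounded ⟨a, ha⟩ hBn hA hB.isBounded)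
  obtain ⟨b, hb, hab⟩ := hB.exists_infDist_eq_dist hBn a
  obtain ⟨C, hC⟩ := hB.isBounded.exists_norm_le
  have h2 : f b ≤ sSup (f '' B) := le_csSup (bddAbove_image hC f) ⟨b, hb, rfl⟩
  have h3 : f a - f b ≤ ‖a - b‖ := by
    rw [← map_sub]
    exact (le_abs_self _).trans (hf _)
  rw [hab, dist_eq_norm] at h1
  linarith

lemma norm_le_of_mem_avg {Ω : Type v} {Ψ : ℕ → Ω → BC X}
    (h : ∀ n ω, ∀ x ∈ (Ψ n ω).carrier, ‖x‖ ≤ 1) {n : ℕ} {ω : Ω} {a : X} (ha : a ∈ avg Ψ n ω) :
    ‖a‖ ≤ 1 := by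
  obtain ⟨s, hs, rfl⟩ := ha
  rw [Set.mem_finsetSum] at hs
  obtain ⟨g, hg, rfl⟩ := hs
  show ‖(1 / (n : ℝ)) • ∑ i ∈ Finset.range n, g i‖ ≤ 1
  rw [norm_smul, Real.norm_of_nonneg (by positivity)]
  have h1 : ‖∑ i ∈ Finset.range n, g i‖ ≤ n := by
    refine (norm_sum_le _ _).trans ?_
    refine (Finset.sum_le_sum fun i hi => h i ω _ (hg hi)).trans ?_
    simp
  rcases Nat.eq_zero_or_pos n with hn | hn
  · subst hn; simp
  · have hn' : (0 : ℝ) < n := by exact_mod_cast hn
    calc 1 / (n : ℝ) * ‖∑ i ∈ Finset.range n, g i‖ ≤ 1 / (n : ℝ) * n :=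
          mul_le_mul_of_nonneg_left h1 (by positivity)
      _ = 1 := by field_simp

lemma mem_avg {Ω : Type v} {Ψ : ℕ → Ω → BC X} {n : ℕ} {ω : Ω} {a : ℕ → X}
    (ha : ∀ i, a i ∈ (Ψ i ω).carrier) :
    (1 / (n : ℝ)) • ∑ i ∈ Finset.range n, a i ∈ avg Ψ n ω := by
  refine ⟨∑ i ∈ Finset.range n, a i, ?_, rfl⟩
  exact Set.finsetSum_mem_finsetSum _ _ _ fun i _ => ha i

end Pool.Agent.R326.RS
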